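import Pool.Agent.Y106.Fib.Defs
import Pool.Agent.H447R3.DegDefs

/-!
# Homological and numerical equivalence in families: definitions
-/

open CategoryTheory AlgebraicGeometry

universe u₁ v₁ u v

namespace Pool.Agent.Y106.DF

section Alg

variable {K K' A B : Type*} [Field K] [Field K'] [Ring A] [Ring B] [Algebra K A] [Algebra K' B]

/-- The trace formula `σ (tr (b * x)) = N * tr' (ρ x)` for all `x` in the subspace `U`. -/
def TraceFormula (σ : K →+* K') (ρ : A →+* B) (tr : A →ₗ[K] K) (tr' : B →ₗ[K'] K')
    (U : Submodule K A) (b : A) (N : ℚ) : Prop :=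
  ∀ x ∈ U, σ (tr (b * x)) = (N : K') * tr' (ρ x)

/-- The ring homomorphism `ρ` is injective and compatible with the traces. -/
structure IsIsometric (σ : K →+* K') (ρ : A →+* B) (tr : A →ₗ[K] K) (tr' : B →ₗ[K'] K') :
    Prop where
  injective : Function.Injective ρ
  tr_eq : ∀ x, tr' (ρ x) = σ (tr x)

/-- The kernels of `ρ` and of the multiplication by `b` on the subspace `U` agree. -/
def SameKernel (ρ : A →+* B) (U : Submodule K A) (b : A) : Prop :=
  ∀ x ∈ U, ρ x = 0 ↔ b * x = 0

/-- An element of `S` which is orthogonal to all elements of `T` is zero. -/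
def Nondegenerate (tr : A →ₗ[K] K) (S T : Set A) : Prop :=
  ∀ x ∈ S, (∀ y ∈ T, tr (x * y) = 0) → x = 0

/-- An element `x` of `S` such that `tr (b * (x * y)) = 0` for all `y` in `T` satisfies
`b * x = 0`. -/
def NondegenerateMod (tr : A →ₗ[K] K) (b : A) (S T : Set A) : Prop :=
  ∀ x ∈ S, (∀ y ∈ T, tr (b * (x * y)) = 0) → b * x = 0

end Alg

open Pool.Agent.H914 Pool.Agent.H447 Pool.Agent.W498.Dom Pool.Agent.Y106.Fib VarClass Obj
  WeilCohomology

variable {k₀ : Type u₁} [Field k₀] {𝒱₀ : VarClass k₀} {ops₀ : CycleOps 𝒱₀}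
  {W₀ : WeilCohomology.{u₁, v₁} ops₀} {Z S : 𝒱₀.Obj} {g : Z ⟶ S} {G : S.Cycles} {E : Z.Cycles}
  {k : Type u} [Field k] {𝒱 : VarClass k} {ops : CycleOps 𝒱} {W : WeilCohomology.{u, v} ops}
  {Y : 𝒱.Obj}

/-- The class `g^* G ^ (dim S)` on `Z`, a multiple of the class of a fibre of `g : Z ⟶ S`. -/
noncomputable def fibreClass (W₀ : WeilCohomology.{u₁, v₁} ops₀) {Z S : 𝒱₀.Obj} (g : Z ⟶ S) (G : S.Cycles) :
    W₀.H Z :=
  W₀.map g (W₀.cl S G ^ S.dim)

/-- The restriction to the fibre `Y` is compatible with the traces: if the degree of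
`G ^ (dim S)` is `N ≠ 0`, then `g^* G ^ (dim S)` is `N` times the class of a fibre, so that
`tr_Z (g^* G ^ (dim S) * x)` is `N` times the trace of the restriction of `x` to `Y`. -/
def HasTrace {Q : PerverseDecomposition W₀ g G E} (R : FibreRestriction Q W Y) : Prop :=
  ∃ N : ℚ, N ≠ 0 ∧ TraceFormula R.σ R.ρ (W₀.tr Z) (W.tr Y) (W₀.gr Z (2 * Y.dim))
    (fibreClass W₀ g G) N

/-- The restrictions to the fibre `Y` of the classes of the cycles of codimension `j` on `Z`. -/
def restricted {Q : PerverseDecomposition W₀ g G E} (R : FibreRestriction Q W Y) (j : ℕ) :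
    Set (W.H Y) :=
  R.ρ '' algClasses W₀ Z j

/-- Numerical and homological equivalence agree for the restrictions to the fibre `Y` of the cycles
of codimension `j` on `Z`, where the numerical equivalence is tested on the restrictions of the
cycles on `Z`. -/
def RestrictedD {Q : PerverseDecomposition W₀ g G E} (R : FibreRestriction Q W Y) (j : ℕ) : Prop :=
  Nondegenerate (W.tr Y) (restricted R j) (restricted R (Y.dim - j))

/-- Up to homological equivalence, all cycles of codimension `j` on the fibre `Y` are restrictions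
of cycles on `Z`. -/
def Extend {Q : PerverseDecomposition W₀ g G E} (R : FibreRestriction Q W Y) (j : ℕ) : Prop :=
  algClasses W Y j ⊆ restricted R j

/-- The conjecture D for the family `g : Z ⟶ S` in codimension `j`: a cycle `z` of codimension `j`
on `Z` such that the degree of `g^* G ^ (dim S) * z * w` is zero for all cycles `w` of the
complementary codimension `dim Z - dim S - j` satisfies `g^* G ^ (dim S) * z = 0`. -/
def FamilyD (W₀ : WeilCohomology.{u₁, v₁} ops₀) {Z S : 𝒱₀.Obj} (g : Z ⟶ S) (G : S.Cycles)
    (j : ℕ) : Prop :=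
  NondegenerateMod (W₀.tr Z) (fibreClass W₀ g G) (algClasses W₀ Z j)
    (algClasses W₀ Z (Z.dim - S.dim - j))

/-- The variety `Y` over `k` is a smooth fibre of a morphism `g : Z ⟶ S` of varieties over `k₀`
(with values in `k`, for example the geometric generic fibre). -/
structure Family (W₀ : WeilCohomology.{u₁, v₁} ops₀) (W : WeilCohomology.{u, v} ops)
    (Y : 𝒱.Obj) where
  /-- the total space of the family -/
  Z : 𝒱₀.Obj
  /-- the base of the family -/
  S : 𝒱₀.Obj
  /-- the family -/
  g : Z ⟶ S
  /-- the ample divisor on the base -/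
  G : S.Cycles
  isCyc_G : S.IsCyc 1 G
  /-- the relatively ample divisor -/
  E : Z.Cycles
  isCyc_E : Z.IsCyc 1 E
  /-- the decomposition theorem for `g` -/
  Q : PerverseDecomposition W₀ g G E
  /-- the variety `Y` is a fibre of `g` -/
  R : FibreRestriction Q W Y
  hasTrace : HasTrace R

/-- The cycle `y` of codimension `j` on the variety `Y` over `k` spreads out over `k₀`: there are
an alteration `f : Y' ⟶ Y` and a family over `k₀` which has `Y'` as a smooth fibre, such that the
class of `f^* y` is the restriction of the class of a cycle on the total space of the family. -/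
structure Spread (W₀ : WeilCohomology.{u₁, v₁} ops₀) (W : WeilCohomology.{u, v} ops) (Y : 𝒱.Obj)
    (j : ℕ) (y : Y.Cycles) where
  /-- the alteration of `Y` -/
  Y' : 𝒱.Obj
  /-- the alteration of `Y` -/
  f : Y' ⟶ Y
  dim_eq : Y'.dim = Y.dim
  isDominant : IsDominant ops f
  /-- the family with fibre `Y'` -/
  F : Family W₀ W Y'
  mem_restricted : W.map f (W.cl Y y) ∈ restricted F.R j

/-- All cycles on all varieties over `k` spread out over `k₀`. For `ℓ`-adic cohomology and an
extension `k` of an algebraically closed field `k₀` this follows from the theorem of de Jong on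
alterations of families and the decomposition theorem. -/
def SpreadsOut (W₀ : WeilCohomology.{u₁, v₁} ops₀) (W : WeilCohomology.{u, v} ops) : Prop :=
  ∀ (Y : 𝒱.Obj) (j : ℕ) (y : Y.Cycles), Y.IsCyc j y → Nonempty (Spread W₀ W Y j y)

/-- The variety `Y` over `k` is the base change of the variety `Z` over the algebraically closed
field `k₀`: the cohomology of `Z` is contained in the cohomology of `Y`, compatibly with the
traces, and `Z` and `Y` have the same classes of cycles. -/
structure BaseChange (W₀ : WeilCohomology.{u₁, v₁} ops₀) (Z : 𝒱₀.Obj)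
    (W : WeilCohomology.{u, v} ops) (Y : 𝒱.Obj) where
  /-- the homomorphism of the coefficient fields -/
  σ : W₀.K →+* W.K
  /-- the base change in cohomology -/
  ρ : W₀.H Z →+* W.H Y
  dim_eq : Z.dim = Y.dim
  isIsometric : IsIsometric σ ρ (W₀.tr Z) (W.tr Y)
  cycles : ∀ p : ℕ, algClasses W Y p = ρ '' algClasses W₀ Z p

/-- Every variety over `k₀` has a base change over `k`. -/
def HasBaseChanges (W₀ : WeilCohomology.{u₁, v₁} ops₀) (W : WeilCohomology.{u, v} ops) : Prop :=
  ∀ Z : 𝒱₀.Obj, ∃ Y : 𝒱.Obj, Nonempty (BaseChange W₀ Z W Y)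

/-- The standard conjecture D for cycles of dimension `i`: on all varieties of dimension at least
`i`, numerical equivalence and homological equivalence agree for cycles of dimension `i`. -/
def HomEqNumOfDim (W : WeilCohomology.{u, v} ops) (i : ℕ) : Prop :=
  ∀ Y : 𝒱.Obj, i ≤ Y.dim → HomEqNumIn W Y (Y.dim - i)

/-- The cycle `y` of codimension `j` on `Y` is numerically trivial. -/
def NumTrivial (ops : CycleOps 𝒱) (Y : 𝒱.Obj) (j : ℕ) (y : Y.Cycles) : Prop :=
  Y.IsCyc j y ∧ ∀ w, Y.IsCyc (Y.dim - j) w → Y.V.degCycle (ops.mul y w) = 0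

/-- The criterion for one family and one fibre, in codimension `j`: the classes on `Z` which
restrict to zero on the fibre are those killed by `g^* G ^ (dim S)`; the conjecture D for the
restricted cycles is equivalent to the conjecture D for the family; if the cycles of codimension `j`
and `dim Y - j` on the fibre extend, it is equivalent to the conjecture D for the fibre in
codimension `j`; and it is implied by the conjecture D for `Z` in codimension `j + dim S`. -/
structure FibreCriterion {Q : PerverseDecomposition W₀ g G E} (R : FibreRestriction Q W Y)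
    (j : ℕ) : Prop where
  sameKernel : SameKernel R.ρ (W₀.gr Z j) (fibreClass W₀ g G)
  restrictedD_iff : RestrictedD R j ↔ FamilyD W₀ g G j
  homEqNumIn_iff : Extend R j → Extend R (Y.dim - j) → (HomEqNumIn W Y j ↔ FamilyD W₀ g G j)
  familyD : HomEqNumIn W₀ Z (j + S.dim) → FamilyD W₀ g G j

end Pool.Agent.Y106.DF
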