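import Pool.Agent.Y106.DF.Defs
import Pool.Agent.Y106.Fib.Main
import Pool.Agent.H447R3.DegB
import Pool.Agent.W534.FamD

/-!
# Homological and numerical equivalence in families
-/

open CategoryTheory AlgebraicGeometry

set_option linter.unusedSectionVars false

universe u₁ v₁ u v

namespace Pool.Agent.Y106.DF

open Pool.Agent.H914 Pool.Agent.H447 Pool.Agent.W498.Dom Pool.Agent.Y106.Fib VarClass Obj
  WeilCohomology

variable {k₀ : Type u₁} [Field k₀] {𝒱₀ : VarClass k₀} {ops₀ : CycleOps 𝒱₀}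
  {W₀ : WeilCohomology.{u₁, v₁} ops₀} {Z S : 𝒱₀.Obj} {g : Z ⟶ S} {G : S.Cycles} {E : Z.Cycles}
  {k : Type u} [Field k] {𝒱 : VarClass k} {ops : CycleOps 𝒱}
  {W : WeilCohomology.{u, v} ops} {Y : 𝒱.Obj} {Q : PerverseDecomposition W₀ g G E}

lemma hop_nilp (hG : S.IsCyc 1 G) : hop W₀ g G ^ (S.dim + 1) = 0 := by
  apply LinearMap.ext
  intro x
  rw [hop_pow]
  have h1 := xi_mem (W := W₀) hG (S.dim + 1)
  rw [W₀.gr_eq_bot S _ (by omega)] at h1
  rw [(Submodule.mem_bot _).1 h1, map_zero, zero_mul, LinearMap.zero_apply]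

/-- A class killed by the class of the fibre restricts to zero. -/
lemma ρ_eq_zero (R : FibreRestriction Q W Y) (hG : S.IsCyc 1 G) (hE : Z.IsCyc 1 E) {j : ℕ}
    {x : W₀.H Z} (hx : x ∈ W₀.gr Z j) (h0 : fibreClass W₀ g G * x = 0) :
    R.ρ x = 0 := by
  have T := setup Q hG hE rfl
  rw [R.ρ_low hG hE hx]
  have h1 : proj Q.isInternal (j + S.dim) x = 0 := by
    apply (T.hl (j + S.dim) j (by omega)).1 _
      ⟨proj_mem _ _ _, T.projP_gr hx (j + S.dim)⟩
    rw [show j + S.dim - j = S.dim by omega]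
    have h2 := h_pow_low T (hop_nilp hG) hx
    rw [← h2, hop_pow]
    exact h0
  rw [h1, map_zero]

/-- The degree of the class of the fibre. -/
lemma base_mem (hG : S.IsCyc 1 G) : fibreClass W₀ g G ∈ W₀.gr Z (2 * S.dim) :=
  W₀.map_mem g (xi_mem hG S.dim)

/-- A class which restricts to zero is killed by the class of the fibre. -/
lemma base_mul_eq_zero (R : FibreRestriction Q W Y) (hR : HasTrace R) (hG : S.IsCyc 1 G) {j : ℕ}
    {x : W₀.H Z} (hx : x ∈ W₀.gr Z j) (h0 : R.ρ x = 0) : fibreClass W₀ g G * x = 0 := by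
  obtain ⟨N, hN, hR⟩ := hR
  apply W₀.nondeg
  intro b
  refine gr_induction (W₀.isInternal Z)
    (p := fun b => W₀.tr Z (fibreClass W₀ g G * x * b) = 0) ?_ ?_ b
  · intro i b hb
    by_cases hi : j + i = 2 * Y.dim
    · have h1 := W₀.mul_mem hx hb
      rw [hi] at h1
      have h2 := hR _ h1
      rw [map_mul R.ρ, h0, zero_mul, map_zero, mul_zero, ← mul_assoc] at h2
      exact (map_eq_zero R.σ).1 h2
    · apply W₀.tr_eq_zero (W₀.mul_mem (W₀.mul_mem (base_mem hG) hx) hb)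
      have := R.dim_eq
      omega
  · intro a b ha hb
    rw [mul_add, map_add, ha, hb, add_zero]

/-- The kernel of the restriction to a fibre. -/
theorem ρ_eq_zero_iff (R : FibreRestriction Q W Y) (hR : HasTrace R) (hG : S.IsCyc 1 G)
    (hE : Z.IsCyc 1 E) (j : ℕ) : SameKernel R.ρ (W₀.gr Z j) (fibreClass W₀ g G) :=
  fun _ hx => ⟨base_mul_eq_zero R hR hG hx, ρ_eq_zero R hG hE hx⟩

/-- The conjecture D for the family in terms of one fibre. -/
theorem restrictedD_iff (R : FibreRestriction Q W Y) (hR : HasTrace R) (hG : S.IsCyc 1 G)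
    (hE : Z.IsCyc 1 E) (j : ℕ) : RestrictedD R j ↔ FamilyD W₀ g G j := by
  have hd := R.dim_eq
  have e1 : Z.dim - S.dim - j = Y.dim - j := by omega
  have hker := ρ_eq_zero_iff R hR hG hE (2 * j)
  obtain ⟨N, hN, hR⟩ := hR
  have key : ∀ z w, Z.IsCyc j z → Z.IsCyc (Y.dim - j) w → j ≤ Y.dim →
      (W.tr Y (R.ρ (W₀.cl Z z) * R.ρ (W₀.cl Z w)) = 0 ↔
        W₀.tr Z (fibreClass W₀ g G * (W₀.cl Z z * W₀.cl Z w)) = 0) := by
    intro z w hz hw hj
    have h1 := W₀.mul_mem (W₀.cl_mem hz) (W₀.cl_mem hw)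
    rw [show 2 * j + 2 * (Y.dim - j) = 2 * Y.dim by omega] at h1
    have h2 := hR _ h1
    rw [← map_mul R.ρ]
    constructor
    · intro h
      rw [h, mul_zero] at h2
      exact (map_eq_zero R.σ).1 h2
    · intro h
      rw [h, map_zero] at h2
      exact (mul_eq_zero.1 h2.symm).resolve_left (Rat.cast_ne_zero.2 hN)
  by_cases hj : j ≤ Y.dim
  · constructor
    · rintro h _ ⟨z, hz, rfl⟩ h0
      rw [← hker _ (W₀.cl_mem hz)]
      apply h _ ⟨_, ⟨z, hz, rfl⟩, rfl⟩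
      rintro _ ⟨_, ⟨w, hw, rfl⟩, rfl⟩
      exact (key z w hz hw hj).2 (h0 _ ⟨w, by rw [e1]; exact hw, rfl⟩)
    · rintro h _ ⟨_, ⟨z, hz, rfl⟩, rfl⟩ h0
      rw [hker _ (W₀.cl_mem hz)]
      apply h _ ⟨z, hz, rfl⟩
      rintro _ ⟨w, hw, rfl⟩
      rw [e1] at hw
      exact (key z w hz hw hj).1 (h0 _ ⟨_, ⟨w, hw, rfl⟩, rfl⟩)
  · constructor
    · rintro _ _ ⟨z, hz, rfl⟩ _
      have h1 := W₀.mul_mem (base_mem (g := g) hG) (W₀.cl_mem hz)
      rw [W₀.gr_eq_bot Z _ (by omega)] at h1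
      exact (Submodule.mem_bot _).1 h1
    · rintro _ _ ⟨_, ⟨z, hz, rfl⟩, rfl⟩ _
      have h1 := R.isGradedHom.mem _ _ (W₀.cl_mem hz)
      rw [W.gr_eq_bot Y _ (by omega)] at h1
      exact (Submodule.mem_bot _).1 h1

/-- The conjecture D for a fibre all of whose cycles extend to the total space. -/
theorem homEqNumIn_iff_familyD (R : FibreRestriction Q W Y) (hR : HasTrace R) (hG : S.IsCyc 1 G)
    (hE : Z.IsCyc 1 E) (j : ℕ) (h1 : Extend R j) (h2 : Extend R (Y.dim - j)) :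
    HomEqNumIn W Y j ↔ FamilyD W₀ g G j := by
  rw [← restrictedD_iff R hR hG hE]
  by_cases hj : j ≤ Y.dim
  swap
  · have h3 : ∀ c ∈ W.gr Y (2 * j), c = 0 := by
      intro c hc
      rw [W.gr_eq_bot Y _ (by omega)] at hc
      exact (Submodule.mem_bot _).1 hc
    refine ⟨?_, fun _ z hz _ => h3 _ (W.cl_mem hz)⟩
    rintro _ _ ⟨_, ⟨z, hz, rfl⟩, rfl⟩ _
    exact h3 _ (R.isGradedHom.mem _ _ (W₀.cl_mem hz))
  constructor
  · rintro h _ ⟨_, ⟨z, hz, rfl⟩, rfl⟩ h0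
    obtain ⟨y, hy, hy'⟩ := R.mapsCycles _ z hz
    rw [← hy']
    apply h y hy
    intro w hw
    have h3 := h0 _ (h2 ⟨w, hw, rfl⟩)
    rw [← hy', tr_mul_cl hy hw (by omega)] at h3
    exact_mod_cast h3
  · intro h y hy h0
    apply h _ (h1 ⟨y, hy, rfl⟩)
    rintro _ ⟨_, ⟨w, hw, rfl⟩, rfl⟩
    obtain ⟨v, hv, hv'⟩ := R.mapsCycles _ w hw
    rw [← hv', tr_mul_cl hy hv (by omega), h0 v hv, Rat.cast_zero]

/-- The intersection with the top power of the class of the base is represented by a cycle. -/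
lemma exists_base_mul (hG : S.IsCyc 1 G) {j : ℕ} {z : Z.Cycles} (hz : Z.IsCyc j z) (m : ℕ) :
    ∃ u, Z.IsCyc (j + m) u ∧ W₀.cl Z u = W₀.map g (W₀.cl S G ^ m) * W₀.cl Z z := by
  induction m with
  | zero => exact ⟨z, hz, by rw [pow_zero, map_one, one_mul]⟩
  | succ m ih =>
    obtain ⟨u, hu, hu'⟩ := ih
    refine ⟨ops₀.mul (ops₀.pull g G) u, ?_, ?_⟩
    · have := ops₀.mul_mem (ops₀.pull_mem g hG) hu
      rwa [show 1 + (j + m) = j + (m + 1) by ring] at this
    · rw [W₀.cl_mul, W₀.cl_pull, hu', pow_succ', map_mul, mul_assoc]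

/-- The conjecture D for the total space in one codimension implies the conjecture D for the
family. -/
theorem familyD_of_homEqNumIn (hG : S.IsCyc 1 G) {j : ℕ} (h : HomEqNumIn W₀ Z (j + S.dim)) :
    FamilyD W₀ g G j := by
  rintro _ ⟨z, hz, rfl⟩ h0
  obtain ⟨u, hu, hu'⟩ := exists_base_mul (W₀ := W₀) (g := g) hG hz S.dim
  rw [fibreClass, ← hu']
  by_cases hj : j + S.dim ≤ Z.dim
  · apply h u hu
    intro w hw
    have h1 := tr_mul_cl (W := W₀) hu hw (by omega)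
    rw [hu', mul_assoc] at h1
    have h2 := h0 _ ⟨w, by rwa [show Z.dim - S.dim - j = Z.dim - (j + S.dim) by omega], rfl⟩
    rw [fibreClass, h1] at h2
    exact_mod_cast h2
  · have h1 := W₀.cl_mem hu
    rw [W₀.gr_eq_bot Z _ (by omega)] at h1
    exact (Submodule.mem_bot _).1 h1

theorem fibreCriterion (R : FibreRestriction Q W Y) (hR : HasTrace R) (hG : S.IsCyc 1 G)
    (hE : Z.IsCyc 1 E) (j : ℕ) : FibreCriterion R j where
  sameKernel := ρ_eq_zero_iff R hR hG hE j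
  restrictedD_iff := restrictedD_iff R hR hG hE j
  homEqNumIn_iff := homEqNumIn_iff_familyD R hR hG hE j
  familyD := familyD_of_homEqNumIn hG

/-- The conjecture D for a cycle which spreads out. -/
theorem cl_eq_zero_of_spread {j : ℕ} {y : Y.Cycles} (hy : NumTrivial ops Y j y)
    (T : Spread W₀ W Y j y) (hD : FamilyD W₀ T.F.g T.F.G j) : W.cl Y y = 0 := by
  obtain ⟨hy, h0⟩ := hy
  by_cases hj : j ≤ Y.dim
  swap
  · have h1 := W.cl_mem hy
    rw [W.gr_eq_bot Y _ (by omega)] at h1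
    exact (Submodule.mem_bot _).1 h1
  have hR := (restrictedD_iff T.F.R T.F.hasTrace T.F.isCyc_G T.F.isCyc_E j).2 hD
  apply map_inj T.isDominant
  apply hR _ T.mem_restricted
  rintro _ ⟨_, ⟨w, hw, rfl⟩, rfl⟩
  obtain ⟨w', hw', hw''⟩ := T.F.R.mapsCycles _ w hw
  rw [← hw'', W.even_comm (W.map_mem T.f (W.cl_mem hy)), ← W.tr_push,
    ← W.even_comm (W.cl_mem hy), ← W.cl_push]
  have h1 : Y.IsCyc (Y.dim - j) (ops.push T.f w') := by
    apply ops.push_mem T.f hw'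
    rw [T.dim_eq]
  rw [tr_mul_cl hy h1 (by omega), h0 _ h1, Rat.cast_zero]

/-- The conjecture D over `k₀` implies the conjecture D over `k`. -/
theorem homEqNumOfDim_of_spreadsOut (hS : SpreadsOut W₀ W) {i : ℕ} (h : HomEqNumOfDim W₀ i) :
    HomEqNumOfDim W i := by
  intro Y hi y hy h0
  obtain ⟨T⟩ := hS Y _ y hy
  apply cl_eq_zero_of_spread ⟨hy, h0⟩ T
  apply familyD_of_homEqNumIn T.F.isCyc_G
  have h1 := T.F.R.dim_eq
  have h2 := T.dim_eq
  have h3 := h T.F.Z (by omega)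
  rwa [show Y.dim - i + T.F.S.dim = T.F.Z.dim - i by omega]

/-- The conjecture D for the base change implies the conjecture D. -/
theorem homEqNumIn_of_baseChange {Z : 𝒱₀.Obj} (B : BaseChange W₀ Z W Y) {j : ℕ} (hj : j ≤ Z.dim)
    (h : HomEqNumIn W Y j) : HomEqNumIn W₀ Z j := by
  intro z hz h0
  apply B.isIsometric.injective
  rw [map_zero]
  have h1 : B.ρ (W₀.cl Z z) ∈ algClasses W Y j := by
    rw [B.cycles]
    exact ⟨_, ⟨z, hz, rfl⟩, rfl⟩
  obtain ⟨y, hy, hy'⟩ := h1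
  rw [← hy']
  apply h y hy
  intro w hw
  have h2 : W.cl Y w ∈ algClasses W Y (Y.dim - j) := ⟨w, hw, rfl⟩
  rw [B.cycles] at h2
  obtain ⟨_, ⟨v, hv, rfl⟩, hv'⟩ := h2
  have hd := B.dim_eq
  rw [← hd] at hv
  have h1 := tr_mul_cl (W := W) hy hw (by omega)
  rw [hy', ← hv', ← map_mul B.ρ, B.isIsometric.tr_eq, tr_mul_cl (W := W₀) hz hv (by omega),
    h0 v hv] at h1
  rw [Rat.cast_zero, map_zero] at h1
  exact_mod_cast h1.symm

theorem homEqNumOfDim_of_baseChange (hB : HasBaseChanges W₀ W)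
    {i : ℕ} (h : HomEqNumOfDim W i) : HomEqNumOfDim W₀ i := by
  intro Z hi
  obtain ⟨Y, ⟨B⟩⟩ := hB Z
  apply homEqNumIn_of_baseChange B (by omega)
  have hd := B.dim_eq
  have := h Y (by omega)
  rwa [← hd] at this

lemma homEqNum_iff (W : WeilCohomology.{u, v} ops) :
    (∀ Y, HomEqNum W Y) ↔ ∀ i, HomEqNumOfDim W i := by
  constructor
  · intro h i Y hi
    exact h Y (Y.dim - i) (by omega)
  · intro h Y j hj
    have := h (Y.dim - j) Y (by omega)
    rwa [show Y.dim - (Y.dim - j) = j by omega] at this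

/-- The conjecture D over `k₀` implies the conjecture B over `k`. -/
theorem lefschetzB_of_spreadsOut (hS : SpreadsOut W₀ W) (h : ∀ Z, HomEqNum W₀ Z) {X : 𝒱.Obj}
    {D : X.Cycles} (hD : X.IsCyc 1 D) (hHL : HardLefschetz W X D) : LefschetzB W X D := by
  apply lefschetzB_of_homEqNumIn hD hHL
  by_cases h1 : 1 ≤ X.dim
  · have h2 := homEqNumOfDim_of_spreadsOut hS ((homEqNum_iff W₀).1 h (X.dim - 1)) (X.prod X)
      (by rw [dim_prod]; omega)
    rwa [show (X.prod X).dim - (X.dim - 1) = X.dim + 1 by rw [dim_prod]; omega] at h2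
  · intro z hz _
    have h2 := W.cl_mem hz
    rw [W.gr_eq_bot (X.prod X) _ (by rw [dim_prod]; omega)] at h2
    exact (Submodule.mem_bot _).1 h2

end Pool.Agent.Y106.DF
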